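import Mathlib

set_option autoImplicit false

/-!
# First-order correspondence does not transfer from Kripke frames to full possibility frames

We give a formula `phi` of the basic modal language (one box, one propositional variable) that has a
first-order correspondent over Kripke frames, but none over full possibility frames.

Write `τ = ◇□⊥`, `◆ψ = ◇(τ ∧ ψ)`, `◇₀ψ = ◇(¬τ ∧ ◆ψ)` and `m = q ∧ ¬◆q`. The formula `phi` is the
conjunction of
* `◇₀⊤ ∧ ¬◇₀¬q → ◆q`,
* `◇₀m → ¬◆m`,
* `¬◇₀(q ∧ ¬m ∧ ¬◆m)`.

A Kripke frame validates `phi` iff `◇₀⊤` holds nowhere: at a point of `◇₀⊤` the first conjunct gives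
a point `t` which is both a `◆`-successor and a `◇₀`-successor, and with `q = {t}` the other two
conjuncts contradict each other.

Let `C` be the full possibility frame with points `h A B` (finite partial functions `ℕ → 2`, `A` is
the set where the value is `1` and `B` the set where it is `0`; refinement is extension) and points
`v n`, `t n` and `d` which have no proper refinements, where `h A B` sees `t n` for `n ∉ B` and `v n`
for `n ∉ A`, `v n` sees `t n`, and `t n` sees `d` and all `t m` with `m < n`. Then `phi` is valid on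
`C`, but not on the ultrapower of `C`, which is again a full possibility frame and has the same
first-order theory.
-/

open FirstOrder FirstOrder.Language Filter

namespace Pool.Agent.Results.MP_156542_lc.NoTransfer

universe u v w

/-- Modal formulas over the index set `I`. -/
inductive Form (I : Type w) : Type w
  | var : ℕ → Form I
  | neg : Form I → Form I
  | conj : Form I → Form I → Form I
  | box : I → Form I → Form I

/-- Truth at a point of the Kripke frame `(W, R)` under the valuation `V`. -/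
def KSat {I : Type w} {W : Type u} (R : I → W → W → Prop) (V : ℕ → Set W) : Form I → W → Prop
  | .var n, x => x ∈ V n
  | .neg φ, x => ¬ KSat R V φ x
  | .conj φ ψ, x => KSat R V φ x ∧ KSat R V ψ x
  | .box i φ, x => ∀ y, R i x y → KSat R V φ y

/-- Validity on the Kripke frame `(W, R)`. -/
def KValid {I : Type w} {W : Type u} (R : I → W → W → Prop) (φ : Form I) : Prop :=
  ∀ (V : ℕ → Set W) (x : W), KSat R V φ x

/-- `X` is regular open; `le x' x` means that `x'` refines `x`. -/
def RegOpen {S : Type u} (le : S → S → Prop) (X : Set S) : Prop :=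
  X = {x | ∀ x', le x' x → ∃ x'', le x'' x' ∧ x'' ∈ X}

/-- Full possibility frames with set of points `S`: a partial order `le` (`le x y` means that `x`
refines `y`) and binary relations `R i` such that the regular open sets are closed under each
operation `X ↦ {x | ∀ y, R i x y → y ∈ X}`. -/
structure FullFrame (I : Type w) (S : Type u) where
  le : S → S → Prop
  refl : ∀ x, le x x
  trans : ∀ x y z, le x y → le y z → le x z
  antisymm : ∀ x y, le x y → le y x → x = y
  R : I → S → S → Prop
  closed : ∀ (i : I) (X : Set S), RegOpen le X → RegOpen le {x | ∀ y, R i x y → y ∈ X}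

/-- Forcing at a point of a full possibility frame under the valuation `V`. -/
def Forces {I : Type w} {S : Type u} (F : FullFrame I S) (V : ℕ → Set S) : Form I → S → Prop
  | .var n, x => x ∈ V n
  | .neg φ, x => ∀ x', F.le x' x → ¬ Forces F V φ x'
  | .conj φ ψ, x => Forces F V φ x ∧ Forces F V ψ x
  | .box i φ, x => ∀ y, F.R i x y → Forces F V φ y

/-- Validity on a full possibility frame: the formula is forced at every point under every valuation
in the regular open sets. -/
def PValid {I : Type w} {S : Type u} (F : FullFrame I S) (φ : Form I) : Prop :=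
  ∀ V : ℕ → Set S, (∀ n, RegOpen F.le (V n)) → ∀ x, Forces F V φ x

/-- The relation symbols of the signature of Kripke frames: a binary symbol for each `i`. -/
inductive KSym (I : Type w) : ℕ → Type w
  | R : I → KSym I 2

/-- The signature of Kripke frames. -/
def kripkeLang (I : Type w) : FirstOrder.Language.{0, w} := ⟨fun _ => Empty, KSym I⟩

/-- The relation symbols of the signature of possibility frames: a binary symbol for the refinement
order and a binary symbol for each `i`. -/
inductive PSym (I : Type w) : ℕ → Type w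
  | le : PSym I 2
  | R : I → PSym I 2

/-- The signature of possibility frames. -/
def possLang (I : Type w) : FirstOrder.Language.{0, w} := ⟨fun _ => Empty, PSym I⟩

/-- A Kripke frame as a first-order structure. -/
@[reducible] def kripkeStructure {I : Type w} {W : Type u} (R : I → W → W → Prop) :
    (kripkeLang I).Structure W where
  funMap := fun f _ => Empty.elim f
  RelMap := fun {_} r => match r with
    | KSym.R i => fun x => R i (x 0) (x 1)

/-- A full possibility frame as a first-order structure. -/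
@[reducible] def possStructure {I : Type w} {S : Type u} (F : FullFrame I S) : (possLang I).Structure S where
  funMap := fun f _ => Empty.elim f
  RelMap := fun {_} r => match r with
    | PSym.le => fun x => F.le (x 0) (x 1)
    | PSym.R i => fun x => F.R i (x 0) (x 1)

/-- `φ` has a first-order correspondent over the Kripke frames with points in `Type u`. -/
def HasKripkeCorrespondent {I : Type w} (φ : Form I) : Prop :=
  ∃ α : (kripkeLang I).Sentence, ∀ (W : Type u) [Nonempty W] (R : I → W → W → Prop),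
    KValid R φ ↔ @Sentence.Realize (kripkeLang I) W (kripkeStructure R) α

/-- `φ` has a first-order correspondent over the full possibility frames with points in
`Type v`. -/
def HasPossibilityCorrespondent {I : Type w} (φ : Form I) : Prop :=
  ∃ β : (possLang I).Sentence, ∀ (S : Type v) [Nonempty S] (F : FullFrame I S),
    PValid F φ ↔ @Sentence.Realize (possLang I) S (possStructure F) β

/-! ### The formula -/

section formula

variable {I : Type w} (i : I)

def bot : Form I := .conj (.var 0) (.neg (.var 0))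
def top : Form I := .neg bot
def dia (φ : Form I) : Form I := .neg (.box i (.neg φ))
def delta : Form I := .box i bot
def tau : Form I := dia i (delta i)
def d1 (φ : Form I) : Form I := dia i (.conj (tau i) φ)
def d0 (φ : Form I) : Form I := dia i (.conj (.neg (tau i)) (d1 i φ))
def m : Form I := .conj (.var 0) (.neg (d1 i (.var 0)))
def fG : Form I :=
  .neg (.conj (d0 i top) (.conj (.neg (d0 i (.neg (.var 0)))) (.neg (d1 i (.var 0)))))
def fD : Form I := .neg (.conj (d0 i (m i)) (d1 i (m i)))
def fW : Form I := .neg (d0 i (.conj (.var 0) (.conj (.neg (m i)) (.neg (d1 i (m i))))))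
def phi : Form I := .conj (fG i) (.conj (fD i) (fW i))

end formula

/-! ### Kripke frames -/

section kripke

variable {I : Type w} {W : Type u} (R : I → W → W → Prop) (V : ℕ → Set W) (i : I)

def Tau (x : W) : Prop := ∃ d, R i x d ∧ ∀ e, ¬ R i d e

theorem ksat_dia (φ : Form I) (x : W) : KSat R V (dia i φ) x ↔ ∃ y, R i x y ∧ KSat R V φ y := by
  simp only [dia, KSat]
  push Not
  rfl

theorem ksat_tau (x : W) : KSat R V (tau i) x ↔ Tau R i x := by
  rw [tau, ksat_dia]
  refine exists_congr fun y => and_congr Iff.rfl ?_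
  simp only [delta, KSat, bot]
  refine forall_congr' fun z => ?_
  tauto

theorem ksat_d1 (φ : Form I) (x : W) :
    KSat R V (d1 i φ) x ↔ ∃ y, R i x y ∧ Tau R i y ∧ KSat R V φ y := by
  rw [d1, ksat_dia]
  simp only [KSat, ksat_tau]

theorem ksat_d0 (φ : Form I) (x : W) :
    KSat R V (d0 i φ) x ↔
      ∃ y, R i x y ∧ ¬ Tau R i y ∧ ∃ z, R i y z ∧ Tau R i z ∧ KSat R V φ z := by
  rw [d0, ksat_dia]
  simp only [KSat, ksat_tau, ksat_d1]

theorem kvalid_phi : KValid R (phi i) ↔
    ∀ x, ¬ ∃ y, R i x y ∧ ¬ Tau R i y ∧ ∃ z, R i y z ∧ Tau R i z := by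
  constructor
  · rintro h x ⟨y, hxy, hy, z, hyz, hz⟩
    -- a common successor
    have h1 := (h (fun _ => {t | ∃ y, R i x y ∧ ¬ Tau R i y ∧ R i y t ∧ Tau R i t}) x).1
    simp only [fG, KSat, ksat_d0, ksat_d1, top, bot] at h1
    obtain ⟨t, hxt, ht, y', hxy', hy', hyt', _⟩ : ∃ t, R i x t ∧ Tau R i t ∧
        ∃ y, R i x y ∧ ¬ Tau R i y ∧ R i y t ∧ Tau R i t := by
      by_contra hcon
      apply h1
      refine ⟨⟨y, hxy, hy, z, hyz, hz, fun h => h.2 h.1⟩, ?_, ?_⟩
      · rintro ⟨y', hxy', hy', z', hyz', hz', hn⟩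
        exact hn ⟨y', hxy', hy', hyz', hz'⟩
      · rintro ⟨t, h2, h3, h4⟩
        exact hcon ⟨t, h2, h3, h4⟩
    have h2 := h (fun _ => {t}) x
    have hD := h2.2.1
    have hW := h2.2.2
    simp only [fD, fW, m, KSat, ksat_d0, ksat_d1, Set.mem_singleton_iff] at hD hW
    have htt : ¬ R i t t := by
      intro htt
      apply hW
      refine ⟨y', hxy', hy', t, hyt', ht, rfl, ?_, ?_⟩
      · rintro ⟨_, h3⟩
        exact h3 ⟨t, htt, ht, rfl⟩
      · rintro ⟨t', _, _, rfl, h3⟩
        exact h3 ⟨t', htt, ht, rfl⟩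
    have hmt : t = t ∧ ¬ ∃ y, R i t y ∧ Tau R i y ∧ y = t := by
      refine ⟨rfl, ?_⟩
      rintro ⟨y, h3, _, rfl⟩
      exact htt h3
    exact hD ⟨⟨y', hxy', hy', t, hyt', ht, hmt⟩, t, hxt, ht, hmt⟩
  · intro h V x
    refine ⟨?_, ?_, ?_⟩
    · simp only [fG, KSat, ksat_d0]
      rintro ⟨⟨y, h1, h2, z, h3, h4, _⟩, _⟩
      exact h x ⟨y, h1, h2, z, h3, h4⟩
    · simp only [fD, KSat, ksat_d0]
      rintro ⟨⟨y, h1, h2, z, h3, h4, _⟩, _⟩
      exact h x ⟨y, h1, h2, z, h3, h4⟩
    · simp only [fW, KSat, ksat_d0]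
      rintro ⟨y, h1, h2, z, h3, h4, _⟩
      exact h x ⟨y, h1, h2, z, h3, h4⟩

/-- the symbol for `R i` -/
def symR (i : I) : (kripkeLang I).Relations 2 := KSym.R i

/-- the first-order correspondent of `phi` -/
def alpha (i : I) : (kripkeLang I).Sentence :=
  ∀' ∼ (∃' ((symR i).boundedFormula₂ (&0) (&1) ⊓
    (∼ (∃' ((symR i).boundedFormula₂ (&1) (&2) ⊓ ∀' ∼ ((symR i).boundedFormula₂ (&2) (&3)))) ⊓
      ∃' ((symR i).boundedFormula₂ (&1) (&2) ⊓
        ∃' ((symR i).boundedFormula₂ (&2) (&3) ⊓ ∀' ∼ ((symR i).boundedFormula₂ (&3) (&4)))))))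

theorem realize_alpha : @Sentence.Realize (kripkeLang I) W (kripkeStructure R) (alpha i) ↔
    ∀ x, ¬ ∃ y, R i x y ∧ ¬ Tau R i y ∧ ∃ z, R i y z ∧ Tau R i z := by
  let _ := kripkeStructure R
  have hR : ∀ v : Fin 2 → W, Structure.RelMap (symR i) v ↔ R i (v 0) (v 1) := fun v => Iff.rfl
  simp [alpha, Sentence.Realize, Formula.Realize, hR, Fin.snoc, Tau]

theorem hasKripkeCorrespondent_phi : HasKripkeCorrespondent.{u} (phi i) := by
  refine ⟨alpha i, ?_⟩
  intro W _ R
  rw [kvalid_phi, realize_alpha]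

end kripke

/-! ### Full possibility frames -/

section general

variable {I : Type w} {S : Type u}

/-- a sufficient condition for the closure of the regular open sets under the box -/
theorem closed_of {le R : S → S → Prop} (refl : ∀ x, le x x)
    (h1 : ∀ x x' y, le x' x → R x' y → R x y)
    (h2 : ∀ x y, R x y → ∃ x', le x' x ∧ ∀ x'', le x'' x' → R x'' y) (X : Set S) :
    RegOpen le {x | ∀ y, R x y → y ∈ X} := by
  ext x
  simp only [Set.mem_ofPred_eq]
  constructor
  · intro h x' hx'
    exact ⟨x', refl x', fun y hy => h y (h1 x x' y hx' hy)⟩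
  · intro h y hy
    obtain ⟨x', hx', h3⟩ := h2 x y hy
    obtain ⟨x'', h4, h5⟩ := h x' hx'
    exact h5 y (h3 x'' h4)

theorem forces_dia (F : FullFrame I S) (V : ℕ → Set S) (i : I) (φ : Form I) (x : S) :
    Forces F V (dia i φ) x ↔
      ∀ x', F.le x' x → ∃ y, F.R i x' y ∧ ∃ y', F.le y' y ∧ Forces F V φ y' := by
  simp only [dia, Forces]
  push Not
  rfl

theorem not_forces_bot (F : FullFrame I S) (V : ℕ → Set S) (x : S) : ¬ Forces F V bot x := by
  rintro ⟨h1, h2⟩
  exact h2 x (F.refl x) h1

theorem forces_delta (F : FullFrame I S) (V : ℕ → Set S) (i : I) (x : S) :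
    Forces F V (delta i) x ↔ ∀ y, ¬ F.R i x y := by
  simp only [delta, Forces]
  exact forall_congr' fun y => ⟨fun h hy => not_forces_bot F V y (h hy), fun h hy => (h hy).elim⟩

theorem forces_top (F : FullFrame I S) (V : ℕ → Set S) (x : S) : Forces F V top x :=
  fun x' _ => not_forces_bot F V x'

end general

/-- The points of the frame. -/
inductive C : Type v
  | h (A B : Finset ℕ) (hd : Disjoint A B) : C
  | v (n : ℕ) : C
  | t (n : ℕ) : C
  | d : C

/-- Refinement. -/
inductive Cle : C.{v} → C.{v} → Prop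
  | refl (x : C) : Cle x x
  | h {A B A' B' : Finset ℕ} {hd : Disjoint A B} {hd' : Disjoint A' B'} :
      A ⊆ A' → B ⊆ B' → Cle (.h A' B' hd') (.h A B hd)

/-- Accessibility. -/
inductive CR : C.{v} → C.{v} → Prop
  | ht {A B : Finset ℕ} {hd : Disjoint A B} {n : ℕ} : n ∉ B → CR (.h A B hd) (.t n)
  | hv {A B : Finset ℕ} {hd : Disjoint A B} {n : ℕ} : n ∉ A → CR (.h A B hd) (.v n)
  | vt {n : ℕ} : CR (.v n) (.t n)
  | tt {m n : ℕ} : m < n → CR (.t n) (.t m)
  | td {n : ℕ} : CR (.t n) .d

theorem cle_trans (x y z : C.{v}) : Cle x y → Cle y z → Cle x z := by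
  intro h1 h2
  cases h1 with
  | refl => exact h2
  | h ha hb =>
    cases h2 with
    | refl => exact .h ha hb
    | h ha' hb' => exact .h (ha'.trans ha) (hb'.trans hb)

theorem cle_antisymm (x y : C.{v}) : Cle x y → Cle y x → x = y := by
  intro h1 h2
  cases h1 with
  | refl => rfl
  | h ha hb =>
    cases h2 with
    | refl => rfl
    | h ha' hb' =>
      obtain rfl := ha.antisymm ha'
      obtain rfl := hb.antisymm hb'
      rfl

theorem cr_mono (x x' y : C.{v}) : Cle x' x → CR x' y → CR x y := by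
  intro h1 h2
  cases h1 with
  | refl => exact h2
  | h ha hb =>
    cases h2 with
    | ht hn => exact .ht fun h => hn (hb h)
    | hv hn => exact .hv fun h => hn (ha h)

theorem cr_ext (x y : C.{v}) : CR x y → ∃ x', Cle x' x ∧ ∀ x'', Cle x'' x' → CR x'' y := by
  intro h1
  cases h1 with
  | @ht A B hd n hn =>
    refine ⟨.h (insert n A) B (Finset.disjoint_insert_left.2 ⟨hn, hd⟩),
      .h (Finset.subset_insert _ _) subset_rfl, ?_⟩
    intro x'' h2
    cases h2 with
    | refl => exact .ht hn
    | @h _ _ A' B' _ hd' ha hb =>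
      exact .ht (Finset.disjoint_left.1 hd' (ha (Finset.mem_insert_self _ _)))
  | @hv A B hd n hn =>
    refine ⟨.h A (insert n B) (Finset.disjoint_insert_right.2 ⟨hn, hd⟩),
      .h subset_rfl (Finset.subset_insert _ _), ?_⟩
    intro x'' h2
    cases h2 with
    | refl => exact .hv hn
    | @h _ _ A' B' _ hd' ha hb =>
      exact .hv (Finset.disjoint_right.1 hd' (hb (Finset.mem_insert_self _ _)))
  | vt => exact ⟨_, .refl _, fun x'' h2 => by cases h2; exact .vt⟩
  | tt h => exact ⟨_, .refl _, fun x'' h2 => by cases h2; exact .tt h⟩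
  | td => exact ⟨_, .refl _, fun x'' h2 => by cases h2; exact .td⟩

/-- The frame `C`, with all the accessibility relations equal to `CR`. -/
def F0 (I : Type w) : FullFrame I C.{v} where
  le := Cle
  refl := .refl
  trans := cle_trans
  antisymm := cle_antisymm
  R _ := CR
  closed _ X _ := closed_of .refl cr_mono cr_ext X

section F0

variable {I : Type w} (V : ℕ → Set C.{v}) (i : I)

theorem f0_dia (φ : Form I) (x : C.{v}) : Forces (F0 I) V (dia i φ) x ↔
    ∀ x', Cle x' x → ∃ y, CR x' y ∧ Forces (F0 I) V φ y := by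
  rw [forces_dia]
  refine forall₂_congr fun x' _ => exists_congr fun y => and_congr_right fun hy => ?_
  constructor
  · rintro ⟨y', h1, h2⟩
    change Cle y' y at h1
    change CR x' y at hy
    cases h1 with
    | refl => exact h2
    | h => cases hy
  · intro h
    exact ⟨y, .refl y, h⟩

theorem f0_tau (x : C.{v}) : Forces (F0 I) V (tau i) x ↔ ∃ n, x = .t n := by
  rw [tau, f0_dia]
  constructor
  · intro h
    obtain ⟨y, h1, h2⟩ := h x (.refl x)
    rw [forces_delta] at h2
    cases h1 with
    | ht => exact (h2 _ .td).elim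
    | hv => exact (h2 _ .vt).elim
    | vt => exact (h2 _ .td).elim
    | tt => exact (h2 _ .td).elim
    | td => exact ⟨_, rfl⟩
  · rintro ⟨n, rfl⟩ x' h
    cases h
    refine ⟨.d, .td, ?_⟩
    rw [forces_delta]
    intro y hy
    cases hy

theorem f0_d1 (φ : Form I) (x : C.{v}) : Forces (F0 I) V (d1 i φ) x ↔
    ∀ x', Cle x' x → ∃ n, CR x' (.t n) ∧ Forces (F0 I) V φ (.t n) := by
  rw [d1, f0_dia]
  refine forall₂_congr fun x' _ => ?_
  constructor
  · rintro ⟨y, h1, h2, h3⟩
    obtain ⟨n, rfl⟩ := (f0_tau V i y).1 h2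
    exact ⟨n, h1, h3⟩
  · rintro ⟨n, h1, h2⟩
    exact ⟨_, h1, (f0_tau V i _).2 ⟨n, rfl⟩, h2⟩

theorem f0_d0 (φ : Form I) (x : C.{v}) : Forces (F0 I) V (d0 i φ) x ↔
    ∀ x', Cle x' x → ∃ n, CR x' (.v n) ∧ Forces (F0 I) V φ (.t n) := by
  rw [d0, f0_dia]
  refine forall₂_congr fun x' _ => ?_
  constructor
  · rintro ⟨y, h1, h2, h3⟩
    cases h1 with
    | @ht _ _ _ n => exact (h2 _ (.refl _) ((f0_tau V i _).2 ⟨n, rfl⟩)).elim
    | @hv _ _ _ n hn =>
      obtain ⟨k, h4, h5⟩ := (f0_d1 V i φ _).1 h3 _ (.refl _)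
      cases h4
      exact ⟨n, .hv hn, h5⟩
    | @vt n => exact (h2 _ (.refl _) ((f0_tau V i _).2 ⟨n, rfl⟩)).elim
    | @tt k n => exact (h2 _ (.refl _) ((f0_tau V i _).2 ⟨k, rfl⟩)).elim
    | @td n =>
      obtain ⟨k, h4, h5⟩ := (f0_d1 V i φ _).1 h3 _ (.refl _)
      cases h4
  · rintro ⟨n, h1, h2⟩
    refine ⟨_, h1, ?_, ?_⟩
    · intro y hy
      cases hy
      rw [f0_tau]
      rintro ⟨k, hk⟩
      cases hk
    · rw [f0_d1]
      intro y hy
      cases hy
      exact ⟨n, .vt, h2⟩

theorem f0_neg_t (φ : Form I) (n : ℕ) :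
    Forces (F0 I) V (.neg φ) (.t n) ↔ ¬ Forces (F0 I) V φ (.t n) := by
  constructor
  · intro h
    exact h _ (.refl _)
  · intro h x hx
    cases hx
    exact h

theorem f0_d1_t (φ : Form I) (n : ℕ) :
    Forces (F0 I) V (d1 i φ) (.t n) ↔ ∃ k, k < n ∧ Forces (F0 I) V φ (.t k) := by
  rw [f0_d1]
  constructor
  · intro h
    obtain ⟨k, h1, h2⟩ := h _ (.refl _)
    cases h1 with
    | tt h3 => exact ⟨k, h3, h2⟩
  · rintro ⟨k, h1, h2⟩ x hx
    cases hx
    exact ⟨k, .tt h1, h2⟩

theorem f0_m_t (n : ℕ) : Forces (F0 I) V (m i) (.t n) ↔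
    .t n ∈ V 0 ∧ ∀ k < n, .t k ∉ V 0 := by
  rw [m, Forces, f0_neg_t, f0_d1_t]
  simp only [Forces]
  push Not
  rfl

theorem f0_valid : PValid (F0.{v} I) (phi i) := by
  intro V _ x
  refine ⟨?_, ?_, ?_⟩
  · rintro x' _ ⟨h1, h2, h3⟩
    obtain ⟨n0, h4, _⟩ := (f0_d0 V i _ _).1 h1 _ (.refl _)
    cases h4 with
    | @hv A B hd _ hn0 =>
      obtain ⟨n, hn⟩ := Infinite.exists_notMem_finset (A ∪ B)
      simp only [Finset.mem_union, not_or] at hn
      by_cases hq : (.t n : C.{v}) ∈ V 0
      · refine h3 (.h (insert n A) B (Finset.disjoint_insert_left.2 ⟨hn.2, hd⟩))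
          (.h (Finset.subset_insert _ _) subset_rfl) ?_
        rw [f0_d1]
        intro x'' hx''
        refine ⟨n, ?_, hq⟩
        cases hx'' with
        | refl => exact .ht hn.2
        | @h _ _ A' B' _ hd' ha hb =>
          exact .ht (Finset.disjoint_left.1 hd' (ha (Finset.mem_insert_self _ _)))
      · refine h2 (.h A (insert n B) (Finset.disjoint_insert_right.2 ⟨hn.1, hd⟩))
          (.h subset_rfl (Finset.subset_insert _ _)) ?_
        rw [f0_d0]
        intro x'' hx''
        refine ⟨n, ?_, ?_⟩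
        · cases hx'' with
          | refl => exact .hv hn.1
          | @h _ _ A' B' _ hd' ha hb =>
            exact .hv (Finset.disjoint_right.1 hd' (hb (Finset.mem_insert_self _ _)))
        · rw [f0_neg_t]
          exact hq
  · rintro x' _ ⟨h1, h2⟩
    obtain ⟨k, h4, h5⟩ := (f0_d0 V i _ _).1 h1 _ (.refl _)
    have huniq : ∀ l, Forces (F0 I) V (m i) (.t l) → l = k := by
      intro l hl
      rw [f0_m_t] at hl h5
      by_contra hne
      rcases lt_or_gt_of_ne hne with h | h
      · exact h5.2 l h hl.1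
      · exact hl.2 k h h5.1
    cases h4 with
    | @hv A B hd _ hk =>
      obtain ⟨l, h6, h7⟩ := (f0_d1 V i _ _).1 h2
        (.h A (insert k B) (Finset.disjoint_insert_right.2 ⟨hk, hd⟩))
        (.h subset_rfl (Finset.subset_insert _ _))
      obtain rfl := huniq l h7
      cases h6 with
      | ht h8 => exact h8 (Finset.mem_insert_self _ _)
  · intro x' _ h1
    obtain ⟨k, _, h5, h6, h7⟩ := (f0_d0 V i _ _).1 h1 _ (.refl _)
    rw [f0_neg_t] at h6 h7
    have key : ∀ n, (.t n : C.{v}) ∈ V 0 → Forces (F0 I) V (m i) (.t n) ∨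
        Forces (F0 I) V (d1 i (m i)) (.t n) := by
      intro n
      induction n using Nat.strong_induction_on with
      | _ n ih =>
        intro hn
        by_cases hex : ∃ l < n, (.t l : C.{v}) ∈ V 0
        · right
          obtain ⟨l, hl, hlq⟩ := hex
          rw [f0_d1_t]
          rcases ih l hl hlq with h | h
          · exact ⟨l, hl, h⟩
          · rw [f0_d1_t] at h
            obtain ⟨r, hr, hrm⟩ := h
            exact ⟨r, hr.trans hl, hrm⟩
        · left
          rw [f0_m_t]
          push Not at hex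
          exact ⟨hn, hex⟩
    rcases key k h5 with h | h
    · exact h6 h
    · exact h7 h

end F0

/-! ### The ultrapower -/

/-- The ultrapower of `C`. -/
abbrev Ult : Type v := ((hyperfilter ℕ : Ultrafilter ℕ) : Filter ℕ).Product (fun _ => C.{v})

/-- the class of a sequence -/
noncomputable def mk (a : ℕ → C.{v}) : Ult.{v} := Quotient.mk _ a

theorem mk_eq {a b : ℕ → C.{v}} : mk a = mk b ↔ ∀ᶠ k in (hyperfilter ℕ : Filter ℕ), a k = b k :=
  Quotient.eq

theorem exists_mk (x : Ult.{v}) : ∃ a, x = mk a := by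
  obtain ⟨a, ha⟩ := Quotient.exists_rep x
  exact ⟨a, ha.symm⟩

/-- a relation on the ultrapower -/
def URel (r : C.{v} → C.{v} → Prop) (x y : Ult.{v}) : Prop :=
  ∃ a b, x = mk a ∧ y = mk b ∧ ∀ᶠ k in (hyperfilter ℕ : Filter ℕ), r (a k) (b k)

theorem urel_mk {r : C.{v} → C.{v} → Prop} {a b : ℕ → C.{v}} :
    URel r (mk a) (mk b) ↔ ∀ᶠ k in (hyperfilter ℕ : Filter ℕ), r (a k) (b k) := by
  constructor
  · rintro ⟨a', b', h1, h2, h3⟩
    rw [mk_eq] at h1 h2
    filter_upwards [h1, h2, h3] with k h4 h5 h6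
    rw [h4, h5]
    exact h6
  · intro h
    exact ⟨a, b, rfl, rfl, h⟩

/-- The ultrapower as a full possibility frame. -/
def F1 (I : Type w) : FullFrame I Ult.{v} where
  le := URel Cle
  refl x := by
    obtain ⟨a, rfl⟩ := exists_mk x
    exact urel_mk.2 (Eventually.of_forall fun k => .refl _)
  trans x y z h1 h2 := by
    obtain ⟨a, rfl⟩ := exists_mk x
    obtain ⟨b, rfl⟩ := exists_mk y
    obtain ⟨c, rfl⟩ := exists_mk z
    rw [urel_mk] at *
    filter_upwards [h1, h2] with k h3 h4 using cle_trans _ _ _ h3 h4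
  antisymm x y h1 h2 := by
    obtain ⟨a, rfl⟩ := exists_mk x
    obtain ⟨b, rfl⟩ := exists_mk y
    rw [urel_mk] at *
    rw [mk_eq]
    filter_upwards [h1, h2] with k h3 h4 using cle_antisymm _ _ h3 h4
  R _ := URel CR
  closed _ X _ := by
    refine closed_of ?_ ?_ ?_ X
    · intro x
      obtain ⟨a, rfl⟩ := exists_mk x
      exact urel_mk.2 (Eventually.of_forall fun k => .refl _)
    · intro x x' y h1 h2
      obtain ⟨a, rfl⟩ := exists_mk x
      obtain ⟨a', rfl⟩ := exists_mk x'
      obtain ⟨b, rfl⟩ := exists_mk y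
      rw [urel_mk] at *
      filter_upwards [h1, h2] with k h3 h4 using cr_mono _ _ _ h3 h4
    · intro x y h1
      obtain ⟨a, rfl⟩ := exists_mk x
      obtain ⟨b, rfl⟩ := exists_mk y
      rw [urel_mk] at h1
      have h2 : ∀ k, ∃ c, CR (a k) (b k) → Cle c (a k) ∧ ∀ x'', Cle x'' c → CR x'' (b k) := by
        intro k
        by_cases h : CR (a k) (b k)
        · obtain ⟨c, h3, h4⟩ := cr_ext _ _ h
          exact ⟨c, fun _ => ⟨h3, h4⟩⟩
        · exact ⟨.d, fun h' => (h h').elim⟩
      choose c hc using h2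
      refine ⟨mk c, ?_, ?_⟩
      · rw [urel_mk]
        filter_upwards [h1] with k hk using (hc k hk).1
      · intro x'' h3
        obtain ⟨e, rfl⟩ := exists_mk x''
        rw [urel_mk] at *
        filter_upwards [h1, h3] with k hk h4 using (hc k hk).2 _ h4

/-- a point of the ultrapower all of whose representatives have no proper refinement has no proper
refinement -/
theorem f1_disc {b : ℕ → C.{v}} (hb : ∀ k x, Cle x (b k) → x = b k) {x : Ult.{v}}
    (h : URel Cle x (mk b)) : x = mk b := by
  obtain ⟨a, rfl⟩ := exists_mk x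
  rw [urel_mk] at h
  rw [mk_eq]
  filter_upwards [h] with k hk using hb k _ hk

/-- the class of a sequence of points `t n` -/
noncomputable def tt (a : ℕ → ℕ) : Ult.{v} := mk fun k => .t (a k)

/-- the class of a sequence of points `v n` -/
noncomputable def vv (a : ℕ → ℕ) : Ult.{v} := mk fun k => .v (a k)

theorem disc_tt {a : ℕ → ℕ} {x : Ult.{v}} (h : URel Cle x (tt a)) : x = tt a :=
  f1_disc (fun k x hx => by cases hx; rfl) h

theorem disc_vv {a : ℕ → ℕ} {x : Ult.{v}} (h : URel Cle x (vv a)) : x = vv a :=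
  f1_disc (fun k x hx => by cases hx; rfl) h

/-- the nonstandard points -/
def Q : Set Ult.{v} :=
  {x | ∃ a : ℕ → ℕ, x = tt a ∧ ∀ N, ∀ᶠ k in (hyperfilter ℕ : Filter ℕ), N ≤ a k}

theorem regOpen_Q (I : Type w) : RegOpen (F1.{v} I).le Q := by
  ext x
  simp only [Set.mem_ofPred_eq]
  constructor
  · rintro ⟨a, rfl, ha⟩ x' hx'
    obtain rfl := disc_tt hx'
    exact ⟨tt a, (F1 I).refl _, a, rfl, ha⟩
  · intro h
    obtain ⟨x'', h1, a, rfl, ha⟩ := h x ((F1 I).refl _)
    refine ⟨a, ?_, ha⟩
    obtain ⟨b, rfl⟩ := exists_mk x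
    change URel Cle (tt a) (mk b) at h1
    unfold tt at h1 ⊢
    rw [urel_mk] at h1
    rw [mk_eq]
    filter_upwards [h1] with k hk
    generalize b k = y at hk
    cases hk
    rfl

section F1

variable {I : Type w} (i : I)

/-- the valuation -/
def V1 : ℕ → Set Ult.{v} := fun _ => Q

theorem f1_delta : Forces (F1.{v} I) V1 (delta i) (mk fun _ => .d) := by
  rw [forces_delta]
  intro y hy
  obtain ⟨b, rfl⟩ := exists_mk y
  change URel CR _ _ at hy
  rw [urel_mk] at hy
  obtain ⟨k, hk⟩ := hy.exists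
  cases hk

theorem f1_tau (a : ℕ → ℕ) : Forces (F1.{v} I) V1 (tau i) (tt a) := by
  rw [tau, forces_dia]
  intro x' hx'
  obtain rfl := disc_tt hx'
  exact ⟨mk fun _ => .d, urel_mk.2 (Eventually.of_forall fun k => .td), _, (F1 I).refl _,
    f1_delta i⟩

theorem f1_not_tau (a : ℕ → ℕ) : Forces (F1.{v} I) V1 (.neg (tau i)) (vv a) := by
  intro x' hx' h
  obtain rfl := disc_vv hx'
  rw [tau, forces_dia] at h
  obtain ⟨y, h1, y', h2, h3⟩ := h _ ((F1 I).refl _)
  obtain ⟨b, rfl⟩ := exists_mk y
  change URel CR (mk _) (mk b) at h1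
  rw [urel_mk] at h1
  have h4 : mk b = tt a := by
    unfold tt
    rw [mk_eq]
    filter_upwards [h1] with k hk
    generalize b k = y at hk
    cases hk
    rfl
  rw [h4] at h2
  obtain rfl := disc_tt h2
  rw [forces_delta] at h3
  exact h3 (mk fun _ => .d) (urel_mk.2 (Eventually.of_forall fun k => .td))

/-- every point of `Q` sees a point of `Q` -/
theorem f1_d1_q {x : Ult.{v}} (hx : x ∈ Q) : Forces (F1.{v} I) V1 (d1 i (.var 0)) x := by
  obtain ⟨a, rfl, ha⟩ := hx
  rw [d1, forces_dia]
  intro x' hx'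
  obtain rfl := disc_tt hx'
  refine ⟨tt fun k => a k - 1, urel_mk.2 ?_, _, (F1 I).refl _, f1_tau i _, ?_⟩
  · filter_upwards [ha 1] with k hk
    exact .tt (by omega)
  · refine ⟨_, rfl, fun N => ?_⟩
    filter_upwards [ha (N + 1)] with k hk
    omega

theorem f1_not_m (x : Ult.{v}) : ¬ Forces (F1.{v} I) V1 (m i) x := by
  rintro ⟨h1, h2⟩
  exact h2 x ((F1 I).refl _) (f1_d1_q i h1)

theorem f1_not_d1_m (x : Ult.{v}) : ¬ Forces (F1.{v} I) V1 (d1 i (m i)) x := by
  intro h
  rw [d1, forces_dia] at h
  obtain ⟨y, _, y', _, _, h2⟩ := h x ((F1 I).refl _)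
  exact f1_not_m i y' h2

theorem f1_theta {x : Ult.{v}} (hx : x ∈ Q) : Forces (F1.{v} I) V1
    (.conj (.var 0) (.conj (.neg (m i)) (.neg (d1 i (m i))))) x :=
  ⟨hx, fun x' _ => f1_not_m i x', fun x' _ => f1_not_d1_m i x'⟩

/-- the root -/
noncomputable def root : Ult.{v} := mk fun _ => .h ∅ ∅ (Finset.disjoint_empty_left _)

theorem f1_root : Forces (F1.{v} I) V1
    (d0 i (.conj (.var 0) (.conj (.neg (m i)) (.neg (d1 i (m i)))))) root := by
  rw [d0, forces_dia]
  intro x' hx'
  obtain ⟨a, rfl⟩ := exists_mk x'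
  change URel Cle _ _ at hx'
  unfold root at hx'
  rw [urel_mk] at hx'
  have h1 : ∀ k, ∃ n, k ≤ n ∧ (Cle (a k) (.h ∅ ∅ (Finset.disjoint_empty_left _)) →
      CR (a k) (.v n)) := by
    intro k
    by_cases h : Cle (a k) (.h ∅ ∅ (Finset.disjoint_empty_left _))
    · generalize hx : a k = x at h
      cases h with
      | refl => exact ⟨k, le_rfl, fun _ => .hv (Finset.notMem_empty _)⟩
      | @h _ _ A' B' _ hd' ha hb =>
        obtain ⟨n, hn⟩ := Infinite.exists_notMem_finset (A' ∪ Finset.range k)
        simp only [Finset.mem_union, Finset.mem_range, not_or, not_lt] at hn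
        exact ⟨n, hn.2, fun _ => .hv hn.1⟩
    · exact ⟨k, le_rfl, fun h' => (h h').elim⟩
  choose n hn hn' using h1
  refine ⟨vv n, urel_mk.2 ?_, vv n, (F1 I).refl _, f1_not_tau i n, ?_⟩
  · filter_upwards [hx'] with k hk using hn' k hk
  · rw [d1, forces_dia]
    intro y hy
    obtain rfl := disc_vv hy
    refine ⟨tt n, urel_mk.2 (Eventually.of_forall fun k => .vt), tt n, (F1 I).refl _,
      f1_tau i n, f1_theta i ?_⟩
    refine ⟨n, rfl, fun N => ?_⟩
    have h2 : ∀ᶠ k in (hyperfilter ℕ : Filter ℕ), N ≤ k := by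
      apply Nat.hyperfilter_le_atTop
      exact eventually_ge_atTop N
    filter_upwards [h2] with k hk using hk.trans (hn k)

theorem f1_not_valid : ¬ PValid (F1.{v} I) (phi i) := by
  intro h
  exact (h V1 (fun _ => regOpen_Q I) root).2.2 root ((F1 I).refl _) (f1_root i)

end F1

/-! ### Łoś -/

theorem structure_eq (I : Type w) :
    letI := possStructure (F0.{v} I)
    possStructure (F1.{v} I) =
      (Ultraproduct.structure : (possLang I).Structure Ult.{v}) := by
  let _ := possStructure (F0.{v} I)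
  refine Structure.ext ?_ ?_
  · funext n f
    exact Empty.elim f
  · funext n r x
    obtain ⟨a, rfl⟩ : ∃ a : Fin n → ℕ → C.{v}, x = fun j => mk (a j) := by
      choose a ha using fun j => exists_mk (x j)
      exact ⟨a, funext ha⟩
    have h1 : (Ultraproduct.structure : (possLang I).Structure Ult.{v}).RelMap r
        (fun j => mk (a j)) ↔ ∀ᶠ k in (hyperfilter ℕ : Filter ℕ),
          (possStructure (F0.{v} I)).RelMap r (fun j => a j k) := by
      exact relMap_quotient_mk' (s := ((hyperfilter ℕ : Filter ℕ).productSetoid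
        (fun _ => C.{v}))) (ps := Ultraproduct.setoidPrestructure (fun _ => C.{v})
          (hyperfilter ℕ)) r a
    apply propext
    rw [h1]
    cases r with
    | le => exact urel_mk
    | R i => exact urel_mk

theorem realize_iff (I : Type w) (β : (possLang I).Sentence) :
    @Sentence.Realize (possLang I) Ult.{v} (possStructure (F1.{v} I)) β ↔
      @Sentence.Realize (possLang I) C.{v} (possStructure (F0.{v} I)) β := by
  let _ := possStructure (F0.{v} I)
  rw [structure_eq]
  have : Nonempty C.{v} := ⟨.d⟩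
  exact (Ultraproduct.sentence_realize (u := hyperfilter ℕ) (M := fun _ => C.{v}) β).trans
    (by simp)

/-- **First-order correspondence does not transfer from Kripke frames to full possibility frames.**
For every nonempty index set `I` there is a modal formula that has a first-order correspondent over
Kripke frames but none over full possibility frames. -/
theorem result (I : Type w) [Nonempty I] :
    ∃ φ : Form I, HasKripkeCorrespondent.{u} φ ∧ ¬ HasPossibilityCorrespondent.{v} φ := by
  obtain ⟨i⟩ := ‹Nonempty I›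
  refine ⟨phi i, hasKripkeCorrespondent_phi i, ?_⟩
  rintro ⟨β, hβ⟩
  have : Nonempty C.{v} := ⟨.d⟩
  have : Nonempty Ult.{v} := ⟨root⟩
  have h0 := (hβ C (F0 I)).1 (f0_valid i)
  exact f1_not_valid i ((hβ Ult (F1 I)).2 ((realize_iff I β).2 h0))

end Pool.Agent.Results.MP_156542_lc.NoTransfer
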